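import Pool.Agent.Q276.HL.Stm2

/-! HL-FLW: points with `R ^ 4.8 ≤ x ≤ M R ^ 6` (lemma job FLW); `bU` is copied from
`Pool.Agent.Q176.HL.FIN4` (helper176). -/

set_option autoImplicit false

namespace Pool.Agent.Q130.HL.FLW

open Pool.Agent.W223.HZ Pool.Agent.Q276.HL

/-- cardinality of a finite union of sets of bounded cardinality -/
theorem bU {ι α : Type} (s : Finset ι) (A : ι → Set α) (B : ℝ) (hfin : ∀ j ∈ s, (A j).Finite)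
    (h : ∀ j ∈ s, ((A j).ncard : ℝ) ≤ B) :
    (⋃ j ∈ s, A j).Finite ∧ ((⋃ j ∈ s, A j).ncard : ℝ) ≤ s.card * B := by
  classical
  induction s using Finset.induction_on with
  | empty => simp
  | insert a s ha ih =>
    obtain ⟨h1, h2⟩ := ih (fun j hj => hfin j (Finset.mem_insert_of_mem hj))
      (fun j hj => h j (Finset.mem_insert_of_mem hj))
    rw [Finset.set_biUnion_insert]
    refine ⟨(hfin a (Finset.mem_insert_self _ _)).union h1, ?_⟩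
    have h3 : ((A a ∪ ⋃ j ∈ s, A j).ncard : ℝ) ≤ (A a).ncard + (⋃ j ∈ s, A j).ncard := by
      exact_mod_cast Set.ncard_union_le _ _
    have h4 := h a (Finset.mem_insert_self _ _)
    rw [Finset.card_insert_of_notMem ha]
    push_cast
    linarith

/-- the property of `StmtLCT` -/
def F (R T V : ℝ) (a b c d e : ℤ) : Prop :=
  ∃ p q : ℤ, Good4 3000 R T V a b c d e p q ∧
    (Ch2 3000 R T V a b c d p q ∨ Ch1 3000 R T V b c d e p q)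

/-- the conditional set of `StmtLCT` -/
def AF (M R : ℝ) (ij : ℕ × ℕ) : Set (ℤ × ℤ) := {X | ((2 : ℝ) ^ ij.2 / 2 ≤ M * R ^ ((1 : ℝ) / 3) ∧
  R ^ ((2 : ℝ) / 3) ≤ (2 : ℝ) ^ ij.1 ∧ (2 : ℝ) ^ ij.1 ≤ M * R) ∧
  X ∈ pairs (F R (2 ^ ij.2 / 2) (2 ^ ij.1))}

theorem half (j : ℕ) : (1 / 2 : ℝ) ≤ 2 ^ j / 2 := by
  have : (1 : ℝ) ≤ 2 ^ j := one_le_pow₀ (by norm_num)
  linarith

theorem AF_card {C M R : ℝ} (hC : 1 ≤ C) (hR : 1 ≤ R)
    (hN : ∀ R T V : ℝ, 1 ≤ R → 1 / 2 ≤ T →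
      T ≤ M * R ^ ((1 : ℝ) / 3) → R ^ ((2 : ℝ) / 3) ≤ V → V ≤ M * R →
      (pairs (F R T V)).Finite ∧ ((pairs (F R T V)).ncard : ℝ) ≤ C * R ^ 4)
    (ij : ℕ × ℕ) : (AF M R ij).Finite ∧ ((AF M R ij).ncard : ℝ) ≤ C * R ^ 4 := by
  by_cases h : (2 : ℝ) ^ ij.2 / 2 ≤ M * R ^ ((1 : ℝ) / 3) ∧
      R ^ ((2 : ℝ) / 3) ≤ (2 : ℝ) ^ ij.1 ∧ (2 : ℝ) ^ ij.1 ≤ M * R
  · obtain ⟨h1, h2⟩ := hN R (2 ^ ij.2 / 2) (2 ^ ij.1) hR (half _) h.1 h.2.1 h.2.2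
    have hs : AF M R ij ⊆ _ := fun k hk => hk.2
    refine ⟨h1.subset hs, le_trans ?_ h2⟩
    exact_mod_cast Set.ncard_le_ncard hs h1
  · have he : AF M R ij = ∅ := Set.eq_empty_of_forall_notMem fun k hk => h hk.1
    rw [he]
    refine ⟨Set.finite_empty, ?_⟩
    rw [Set.ncard_empty]
    have : (0 : ℝ) ≤ R ^ 4 := by positivity
    push_cast
    nlinarith

/-- the set of the result -/
def Ex (M R : ℝ) : Set (ℤ × ℤ) :=
  {X : ℤ × ℤ | |(X.1 : ℝ)| ≤ R ^ 2 ∧ |(X.2 : ℝ)| ≤ R ^ 3 ∧ 4 * X.1 ^ 3 + 27 * X.2 ^ 2 ≠ 0 ∧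
    ∃ x y : ℤ, y ^ 2 = x ^ 3 + X.1 * x + X.2 ∧ R ^ ((24 : ℝ) / 5) ≤ (x : ℝ) ∧
      (x : ℝ) ≤ M * R ^ 6}

theorem sing {a b c d e A B : ℤ} (hD : 4 * A ^ 3 + 27 * B ^ 2 ≠ 0)
    (h1 : iI a b c d e = -4 * A) (h2 : iJ a b c d e = -4 * B) : a ≠ 0 ∨ b ≠ 0 := by
  by_contra h
  push Not at h
  obtain ⟨rfl, rfl⟩ := h
  unfold iI at h1
  unfold iJ at h2
  have h3 : 4 * A = -(3 * c ^ 2) := by linarith
  have h4 : 4 * B = c ^ 3 := by linarith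
  have h5 : 16 * (4 * A ^ 3 + 27 * B ^ 2) = 0 := by
    have : 16 * (4 * A ^ 3 + 27 * B ^ 2) = (4 * A) ^ 3 + 27 * (4 * B) ^ 2 := by ring
    rw [this, h3, h4]
    ring
  exact hD (by linarith)

/-- a power of two below a bound has a small exponent -/
theorem expo {i : ℕ} {C R : ℝ} (hC : 1 ≤ C) (hR : 1 ≤ R) (h : (2 : ℝ) ^ i ≤ C * R) :
    (i : ℝ) ≤ 8 * C * R ^ ((1 : ℝ) / 4) := by
  have hR0 : (0 : ℝ) < R := by linarith
  have hCR : (0 : ℝ) < C * R := by positivity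
  have h1 : Real.log ((2 : ℝ) ^ i) ≤ Real.log (C * R) := Real.log_le_log (by positivity) h
  rw [Real.log_pow] at h1
  have h2 : Real.log (C * R) ≤ (C * R) ^ ((1 : ℝ) / 4) / (1 / 4) :=
    Real.log_le_rpow_div hCR.le (by norm_num)
  rw [Real.mul_rpow (by linarith) hR0.le] at h2
  have h3 : C ^ ((1 : ℝ) / 4) ≤ C := by
    calc C ^ ((1 : ℝ) / 4) ≤ C ^ (1 : ℝ) :=
          Real.rpow_le_rpow_of_exponent_le hC (by norm_num)
      _ = C := Real.rpow_one C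
  have h4 := Real.log_two_gt_d9
  have h5 : (0 : ℝ) < R ^ ((1 : ℝ) / 4) := Real.rpow_pos_of_pos hR0 _
  have h6 : (0 : ℝ) ≤ i := Nat.cast_nonneg i
  have h7 : C ^ ((1 : ℝ) / 4) * R ^ ((1 : ℝ) / 4) ≤ C * R ^ ((1 : ℝ) / 4) :=
    mul_le_mul_of_nonneg_right h3 h5.le
  have h8 : (1 / 2 : ℝ) * i ≤ i * Real.log 2 := by nlinarith
  linarith

/-- the data of a point -/
theorem mem (hR : StmtREDL) {M R : ℝ} (hM : 1 ≤ M) (hb : (20 : ℝ) ≤ R) (hb2 : (2 : ℝ) ^ 30 ≤ R)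
    {A B x y : ℤ} (hA : |(A : ℝ)| ≤ R ^ 2)
    (hB : |(B : ℝ)| ≤ R ^ 3) (hD : 4 * A ^ 3 + 27 * B ^ 2 ≠ 0)
    (hxy : y ^ 2 = x ^ 3 + A * x + B) (hx : R ^ ((24 : ℝ) / 5) ≤ (x : ℝ))
    (hx2 : (x : ℝ) ≤ M * R ^ 6) :
    ∃ (i j : ℕ) (a b c d e p q : ℤ), R ^ ((2 : ℝ) / 3) ≤ 2 ^ i ∧ (2 : ℝ) ^ i ≤ M * R ∧
      Good4 3000 R (2 ^ j / 2) (2 ^ i) a b c d e p q ∧
      (Ch2 3000 R (2 ^ j / 2) (2 ^ i) a b c d p q ∨ Ch1 3000 R (2 ^ j / 2) (2 ^ i) b c d e p q) ∧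
      (a ≠ 0 ∨ b ≠ 0) ∧ iI a b c d e = -4 * A ∧ iJ a b c d e = -4 * B := by
  have hR1 : (1 : ℝ) ≤ R := by linarith
  have hR0 : (0 : ℝ) < R := by linarith
  have hx4 : R ^ 4 ≤ (x : ℝ) := by
    refine le_trans ?_ hx
    rw [← Real.rpow_natCast]
    exact Real.rpow_le_rpow_of_exponent_le hR1 (by norm_num)
  have hx0 : (0 : ℝ) < x := lt_of_lt_of_le (by positivity) hx4
  obtain ⟨i, j, a, b, c, d, e, p, q, h4, h5, h7, h8, h9, h9'⟩ :=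
    hR R hb x |y| A B (by rw [sq_abs]; exact hxy) (abs_nonneg y) hA hB hx4
  refine ⟨i, j, a, b, c, d, e, p, q, ?_, ?_, h7, h8, sing hD h9 h9', h9, h9'⟩
  · have hpow : ∀ s : ℝ, 0 < R ^ s := fun s => Real.rpow_pos_of_pos hR0 s
    have h10 : R ^ ((12 : ℝ) / 5) ≤ √(x : ℝ) := by
      apply Real.le_sqrt_of_sq_le
      refine le_trans (le_of_eq ?_) hx
      rw [← Real.rpow_natCast, ← Real.rpow_mul hR0.le]
      norm_num
    have h11 : R ^ ((7 : ℝ) / 5) ≤ √(x : ℝ) / R := by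
      rw [le_div_iff₀ hR0]
      refine le_trans (le_of_eq ?_) h10
      calc R ^ ((7 : ℝ) / 5) * R = R ^ ((7 : ℝ) / 5) * R ^ (1 : ℝ) := by rw [Real.rpow_one]
        _ = R ^ ((12 : ℝ) / 5) := by rw [← Real.rpow_add hR0]; norm_num
    have h12 : R ^ ((7 : ℝ) / 10) ≤ √(√(x : ℝ) / R) := by
      apply Real.le_sqrt_of_sq_le
      refine le_trans (le_of_eq ?_) h11
      rw [← Real.rpow_natCast, ← Real.rpow_mul hR0.le]
      norm_num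
    have h13 : (2 : ℝ) ≤ R ^ ((1 : ℝ) / 30) := by
      calc (2 : ℝ) = ((2 : ℝ) ^ 30) ^ ((1 : ℝ) / 30) := by
            rw [← Real.rpow_natCast, ← Real.rpow_mul (by norm_num)]
            norm_num
        _ ≤ R ^ ((1 : ℝ) / 30) := Real.rpow_le_rpow (by positivity) hb2 (by norm_num)
    have h14 : R ^ ((7 : ℝ) / 10) = R ^ ((1 : ℝ) / 30) * R ^ ((2 : ℝ) / 3) := by
      rw [← Real.rpow_add hR0]
      norm_num
    have h15 : (2 : ℝ) ^ (i + 1) = 2 * 2 ^ i := by ring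
    rw [h15] at h5
    rw [h14] at h12
    have h16 := hpow ((2 : ℝ) / 3)
    have h17 : 2 * R ^ ((2 : ℝ) / 3) ≤ R ^ ((1 : ℝ) / 30) * R ^ ((2 : ℝ) / 3) :=
      mul_le_mul_of_nonneg_right h13 h16.le
    linarith
  · refine h4.trans ?_
    have h10 : √(x : ℝ) ≤ M * R ^ 3 := by
      rw [Real.sqrt_le_left (by positivity)]
      refine hx2.trans ?_
      have : (M * R ^ 3) ^ 2 = M ^ 2 * R ^ 6 := by ring
      rw [this]
      refine mul_le_mul_of_nonneg_right ?_ (by positivity)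
      nlinarith
    rw [Real.sqrt_le_left (by positivity), div_le_iff₀ hR0]
    refine h10.trans ?_
    have : (M * R) ^ 2 * R = M ^ 2 * R ^ 3 := by ring
    rw [this]
    refine mul_le_mul_of_nonneg_right ?_ (by positivity)
    nlinarith

theorem large (hR : StmtREDL) (hT : StmtTBD) (hL : StmtLCT) (M : ℝ) (hM : 1 ≤ M) :
    ∃ C R₁ : ℝ, 0 ≤ C ∧ 1 ≤ R₁ ∧ ∀ R : ℝ, R₁ ≤ R →
    ((Ex M R).ncard : ℝ) ≤ C * R ^ ((9 : ℝ) / 2) := by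
  classical
  obtain ⟨CT, hCT, hT⟩ := hT
  have hMC : 1 ≤ M * CT := by nlinarith
  have hMle : M ≤ M * CT := by nlinarith
  have hCTle : CT ≤ M * CT := by nlinarith
  obtain ⟨C, hC, hL⟩ := hL (M * CT) hMC
  refine ⟨(9 * M) * (17 * CT) * C, max CT (max 20 (2 ^ 30)), by positivity,
    le_trans hCT (le_max_left _ _), fun R hRR => ?_⟩
  have hb : (20 : ℝ) ≤ R := le_trans (le_trans (le_max_left _ _) (le_max_right _ _)) hRR
  have hb2 : (2 : ℝ) ^ 30 ≤ R := le_trans (le_trans (le_max_right _ _) (le_max_right _ _)) hRR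
  have hRCT : CT ≤ R := le_trans (le_max_left _ _) hRR
  have hR1 : (1 : ℝ) ≤ R := by linarith
  have hRpos : (0 : ℝ) < R := by linarith
  have hpow : ∀ s : ℝ, 0 < R ^ s := fun s => Real.rpow_pos_of_pos hRpos s
  have hq1 : (1 : ℝ) ≤ R ^ ((1 : ℝ) / 4) := Real.one_le_rpow hR1 (by norm_num)
  set I := ⌊8 * M * R ^ ((1 : ℝ) / 4)⌋₊ with hI
  set J := ⌊8 * (2 * CT) * R ^ ((1 : ℝ) / 4)⌋₊ with hJ
  have hI1 : ((I + 1 : ℕ) : ℝ) ≤ 9 * M * R ^ ((1 : ℝ) / 4) := by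
    have h1 := Nat.floor_le (show (0 : ℝ) ≤ 8 * M * R ^ ((1 : ℝ) / 4) by positivity)
    rw [← hI] at h1
    push_cast
    nlinarith
  have hJ1 : ((J + 1 : ℕ) : ℝ) ≤ 17 * CT * R ^ ((1 : ℝ) / 4) := by
    have h1 := Nat.floor_le (show (0 : ℝ) ≤ 8 * (2 * CT) * R ^ ((1 : ℝ) / 4) by positivity)
    rw [← hJ] at h1
    push_cast
    nlinarith
  obtain ⟨hNf, hNc⟩ := bU (Finset.range (I + 1) ×ˢ Finset.range (J + 1)) (AF (M * CT) R)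
    (C * R ^ 4)
    (fun ij _ => (AF_card hC hR1 hL ij).1)
    (fun ij _ => (AF_card hC hR1 hL ij).2)
  rw [Finset.card_product, Finset.card_range, Finset.card_range] at hNc
  set UN := ⋃ ij ∈ Finset.range (I + 1) ×ˢ Finset.range (J + 1), AF (M * CT) R ij with hUN
  have hsub : Ex M R ⊆ UN := by
    rintro X ⟨hA, hB, hD, x, y, hxy, hx1, hx2⟩
    obtain ⟨i, j, a, b, c, d, e, p, q, h3, h4, h5, h6, h7, h8, h9⟩ :=
      mem hR hM hb hb2 hA hB hD hxy hx1 hx2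
    have hTb := hT R (2 ^ j / 2) (2 ^ i) hRCT (half j) h3 a b c d e p q h5 h6 h7
    have hi : (i : ℝ) ≤ 8 * M * R ^ ((1 : ℝ) / 4) := expo hM hR1 h4
    have hj : (j : ℝ) ≤ 8 * (2 * CT) * R ^ ((1 : ℝ) / 4) := by
      refine expo (by linarith) hR1 ?_
      have h10 : R ^ ((1 : ℝ) / 3) ≤ R := by
        calc R ^ ((1 : ℝ) / 3) ≤ R ^ (1 : ℝ) :=
              Real.rpow_le_rpow_of_exponent_le hR1 (by norm_num)
          _ = R := Real.rpow_one R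
      have h11 : CT * R ^ ((1 : ℝ) / 3) ≤ CT * R := mul_le_mul_of_nonneg_left h10 (by linarith)
      linarith
    have hi' : i ∈ Finset.range (I + 1) :=
      Finset.mem_range.2 (Nat.lt_succ_of_le (Nat.le_floor hi))
    have hj' : j ∈ Finset.range (J + 1) :=
      Finset.mem_range.2 (Nat.lt_succ_of_le (Nat.le_floor hj))
    rw [hUN]
    refine Set.mem_biUnion (Finset.mem_product.2 ⟨hi', hj'⟩ : (i, j) ∈ _) ?_
    refine ⟨⟨?_, h3, ?_⟩, a, b, c, d, e, ⟨p, q, h5, h6⟩, h8, h9⟩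
    · exact hTb.trans (mul_le_mul_of_nonneg_right hCTle (hpow _).le)
    · exact h4.trans (mul_le_mul_of_nonneg_right hMle hRpos.le)
  have hcard : ((Ex M R).ncard : ℝ) ≤ UN.ncard := by
    exact_mod_cast Set.ncard_le_ncard hsub hNf
  refine hcard.trans (hNc.trans ?_)
  have h2 : R ^ ((1 : ℝ) / 4) * R ^ ((1 : ℝ) / 4) * R ^ 4 = R ^ ((9 : ℝ) / 2) := by
    rw [← Real.rpow_natCast, ← Real.rpow_add hRpos, ← Real.rpow_add hRpos]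
    norm_num
  have h5 : (((I + 1) * (J + 1) : ℕ) : ℝ) ≤
      (9 * M * R ^ ((1 : ℝ) / 4)) * (17 * CT * R ^ ((1 : ℝ) / 4)) := by
    rw [Nat.cast_mul]
    exact mul_le_mul hI1 hJ1 (by positivity) (by positivity)
  calc (((I + 1) * (J + 1) : ℕ) : ℝ) * (C * R ^ 4)
      ≤ ((9 * M * R ^ ((1 : ℝ) / 4)) * (17 * CT * R ^ ((1 : ℝ) / 4))) * (C * R ^ 4) :=
        mul_le_mul_of_nonneg_right h5 (by positivity)
    _ = (9 * M) * (17 * CT) * C * (R ^ ((1 : ℝ) / 4) * R ^ ((1 : ℝ) / 4) * R ^ 4) := by ring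
    _ = (9 * M) * (17 * CT) * C * R ^ ((9 : ℝ) / 2) := by rw [h2]

theorem fin_abs (a b : ℝ) :
    {X : ℤ × ℤ | |(X.1 : ℝ)| ≤ a ∧ |(X.2 : ℝ)| ≤ b}.Finite := by
  refine ((Set.finite_Icc (-⌊a⌋) ⌊a⌋).prod (Set.finite_Icc (-⌊b⌋) ⌊b⌋)).subset ?_
  rintro X ⟨h1, h2⟩
  have key : ∀ (z : ℤ) (t : ℝ), |(z : ℝ)| ≤ t → z ∈ Set.Icc (-⌊t⌋) ⌊t⌋ := by
    intro z t h
    rw [Set.mem_Icc, ← abs_le, Int.le_floor]
    rwa [Int.cast_abs]
  exact ⟨key _ _ h1, key _ _ h2⟩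

theorem flw (hR : StmtREDL) (hT : StmtTBD) (hL : StmtLCT) : StmtFLW := by
  intro M hM
  obtain ⟨C, R₁, hC, hR₁, h⟩ := large hR hT hL M hM
  set K := {X : ℤ × ℤ | |(X.1 : ℝ)| ≤ R₁ ^ 2 ∧ |(X.2 : ℝ)| ≤ R₁ ^ 3} with hK
  have hKf : K.Finite := fin_abs _ _
  refine ⟨C + K.ncard + 1, ?_, fun R hR1 => ?_⟩
  · have : (0 : ℝ) ≤ (K.ncard : ℝ) := Nat.cast_nonneg _
    linarith
  have hR0 : (0 : ℝ) < R := by linarith
  have hone : (1 : ℝ) ≤ R ^ ((9 : ℝ) / 2) := Real.one_le_rpow hR1 (by norm_num)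
  have hKn : (0 : ℝ) ≤ (K.ncard : ℝ) := Nat.cast_nonneg _
  change ((Ex M R).ncard : ℝ) ≤ _
  by_cases hc : R < R₁
  · have hs : Ex M R ⊆ K := by
      rintro X ⟨hA, hB, -⟩
      refine ⟨hA.trans ?_, hB.trans ?_⟩
      · exact pow_le_pow_left₀ hR0.le hc.le _
      · exact pow_le_pow_left₀ hR0.le hc.le _
    have h1 : ((Ex M R).ncard : ℝ) ≤ K.ncard := by
      exact_mod_cast Set.ncard_le_ncard hs hKf
    refine h1.trans ?_
    nlinarith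
  · push Not at hc
    refine (h R hc).trans ?_
    nlinarith

end Pool.Agent.Q130.HL.FLW
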